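import Mathlib
import Pool.Agent.Helper18.Sd.Law

/-!
The exact range of the exponential law for the density of the set `A(x,k)` of the `n` such that each of
`n+1, …, n+k` has a prime factor `≤ x` (a Maier type phenomenon).
-/

namespace Pool.Agent.Results.MP_2edd02_nt.DensityLaw

open Filter Topology

/-- `A(x,k)`: the set of `n` such that every one of `n+1, …, n+k` has a prime divisor `p ≤ x`. -/
def A (x k : ℕ) : Set ℕ := {n : ℕ | ∀ i ∈ Finset.Icc 1 k, ∃ p : ℕ, p.Prime ∧ p ≤ x ∧ p ∣ n + i}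

/-- Let `x(k)` be such that `log x(k) / log k → ∞`, and let `d k` be the natural density of `A(x(k),k)`. Then
`log (d k) ~ -e^(-γ) k / log x(k)` if and only if `log x(k) ≥ k^(1-o(1))`. -/
theorem result (x : ℕ → ℕ) (hx : Tendsto (fun k : ℕ => Real.log (x k) / Real.log k) atTop atTop) :
    ∃ d : ℕ → ℝ,
      (∀ k : ℕ, Tendsto (fun N : ℕ => ((A (x k) k ∩ Set.Iio N).ncard : ℝ) / N) atTop (𝓝 (d k))) ∧
      (Tendsto (fun k : ℕ => Real.log (d k) * Real.log (x k) / k) atTop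
          (𝓝 (-Real.exp (-Real.eulerMascheroniConstant))) ↔
        ∀ b : ℝ, 0 < b → ∀ᶠ k : ℕ in atTop, (k : ℝ) ^ (1 - b) ≤ Real.log (x k)) := by
  classical
  refine ⟨fun k => Pool.Agent.Helper18.Sd.ex (Pool.Agent.Helper18.Sd.pl 0 (x k))
      Pool.Agent.Helper18.Sd.emp (Finset.Icc 1 k), ?_, Pool.Agent.Helper18.Sd.law x hx⟩
  intro k
  have hd := Pool.Agent.Helper18.Sd.dens_ex (Pool.Agent.Helper18.Sd.pl 0 (x k))
    (fun p hp => ((Pool.Agent.Helper18.Sd.mem_pl 0 (x k) p).mp hp).2)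
    (Pool.Agent.Helper18.Sd.nodup_pl 0 (x k)) (Finset.Icc 1 k)
  refine hd.congr ?_
  intro N
  congr 2
  have hset : A (x k) k ∩ Set.Iio N = (((Finset.range N).filter (fun n => ∀ i ∈ Finset.Icc 1 k,
      ∃ p ∈ Pool.Agent.Helper18.Sd.pl 0 (x k), p ∣ n + i) : Finset ℕ) : Set ℕ) := by
    ext n
    simp only [A, Set.mem_inter_iff, Set.mem_ofPred_eq, Set.mem_Iio, Finset.coe_filter,
      Finset.mem_range, Pool.Agent.Helper18.Sd.mem_pl]
    constructor
    · rintro ⟨h3, h4⟩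
      refine ⟨h4, fun i hi => ?_⟩
      obtain ⟨p, hp, hpx, hd⟩ := h3 i hi
      exact ⟨p, ⟨⟨hp.pos, hpx⟩, hp⟩, hd⟩
    · rintro ⟨h4, h3⟩
      refine ⟨fun i hi => ?_, h4⟩
      obtain ⟨p, ⟨⟨_, hpx⟩, hp⟩, hd⟩ := h3 i hi
      exact ⟨p, hp, hpx, hd⟩
  rw [hset, Set.ncard_coe_finset]

end Pool.Agent.Results.MP_2edd02_nt.DensityLaw
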