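import Mathlib
import Pool.Agent.Helper18.Sd.UpperHalf

/-!
The density of the set `A(x,k)` of the `n` such that each of `n+1, …, n+k` has a prime factor `≤ x`:
its order of magnitude on the logarithmic scale for `k / log x ≤ k^0.49`.
-/

namespace Pool.Agent.Results.MP_2edd02_nt.DensityOrder

open Filter Topology

/-- `A(x,k)`: the set of `n` such that every one of `n+1, …, n+k` has a prime divisor `p ≤ x`. -/
def A (x k : ℕ) : Set ℕ := {n : ℕ | ∀ i ∈ Finset.Icc 1 k, ∃ p : ℕ, p.Prime ∧ p ≤ x ∧ p ∣ n + i}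

/-- `V(x) = ∏_(p ≤ x) (1 - 1/p)`, the density of the integers without prime factor `≤ x`. -/
noncomputable def V (x : ℕ) : ℝ := ∏ p ∈ (Finset.Icc 1 x).filter Nat.Prime, (1 - 1 / (p : ℝ))

/-- There are `c > 0` and `k₀` such that for all `k ≥ k₀` and all `x` the natural density `d` of `A(x,k)`
satisfies `d ≤ exp(-c min(k V(x), k^0.49))`, and `d ≥ exp(-2 k V(x))` if `log x ≥ k^0.51`. -/
theorem result : ∃ c : ℝ, 0 < c ∧ ∃ k₀ : ℕ, ∀ k : ℕ, k₀ ≤ k → ∀ x : ℕ, ∃ d : ℝ,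
      Tendsto (fun N : ℕ => ((A x k ∩ Set.Iio N).ncard : ℝ) / N) atTop (𝓝 d) ∧
      d ≤ Real.exp (-(c * min (k * V x) ((k : ℝ) ^ (0.49 : ℝ)))) ∧
      ((k : ℝ) ^ (0.51 : ℝ) ≤ Real.log x → Real.exp (-(2 * (k * V x))) ≤ d) := by
  classical
  obtain ⟨c, hc, k₁, hu⟩ := Pool.Agent.Helper18.Sd.density_upper
  obtain ⟨k₂, hl⟩ := Pool.Agent.Helper18.Sd.density_lower
  refine ⟨c, hc, max k₁ k₂, ?_⟩
  intro k hk x
  have h1 := hu k ((le_max_left _ _).trans hk) x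
  have h2 := hl k ((le_max_right _ _).trans hk) x
  have hV : Pool.Agent.Helper18.Sd.V 0 x = V x := by
    unfold Pool.Agent.Helper18.Sd.V V Pool.Agent.Helper18.Sd.ps
    apply Finset.prod_congr _ (fun _ _ => rfl)
    ext p
    rw [Finset.mem_filter, Finset.mem_filter, Finset.mem_Ioc, Finset.mem_Icc]
    constructor <;> rintro ⟨⟨h3, h4⟩, h5⟩ <;> exact ⟨⟨by omega, h4⟩, h5⟩
  rw [hV] at h1 h2
  refine ⟨_, ?_, h1, h2⟩
  have hd := Pool.Agent.Helper18.Sd.dens_ex (Pool.Agent.Helper18.Sd.pl 0 x)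
    (fun p hp => ((Pool.Agent.Helper18.Sd.mem_pl 0 x p).mp hp).2)
    (Pool.Agent.Helper18.Sd.nodup_pl 0 x) (Finset.Icc 1 k)
  refine hd.congr ?_
  intro N
  congr 2
  have hset : A x k ∩ Set.Iio N = (((Finset.range N).filter (fun n => ∀ i ∈ Finset.Icc 1 k,
      ∃ p ∈ Pool.Agent.Helper18.Sd.pl 0 x, p ∣ n + i) : Finset ℕ) : Set ℕ) := by
    ext n
    simp only [A, Set.mem_inter_iff, Set.mem_ofPred_eq, Set.mem_Iio, Finset.coe_filter,
      Finset.mem_range, Pool.Agent.Helper18.Sd.mem_pl]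
    constructor
    · rintro ⟨h3, h4⟩
      refine ⟨h4, fun i hi => ?_⟩
      obtain ⟨p, hp, hpx, hd⟩ := h3 i hi
      exact ⟨p, ⟨⟨hp.pos, hpx⟩, hp⟩, hd⟩
    · rintro ⟨h4, h3⟩
      refine ⟨fun i hi => ?_, h4⟩
      obtain ⟨p, ⟨⟨_, hpx⟩, hp⟩, hd⟩ := h3 i hi
      exact ⟨p, hp, hpx, hd⟩
  rw [hset, Set.ncard_coe_finset]

end Pool.Agent.Results.MP_2edd02_nt.DensityOrder
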