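import Mathlib
import Pool.Agent.Helper6.ER3.Final

/-!
The limit of the Erdős–Rankin method for covering `k` consecutive integers by residue classes
modulo the primes `p ≤ x`, with no condition on the classes modulo small primes.
-/

namespace Pool.Agent.Results.MP_2edd02_nt.MethodLimit

/-- `n ∈ A(x,k)`: every one of `n+1, …, n+k` has a prime divisor `p ≤ x`. -/
def InA (x k n : ℕ) : Prop := ∀ i ∈ Finset.Icc 1 k, ∃ p : ℕ, p.Prime ∧ p ≤ x ∧ p ∣ n + i

/-- There is an absolute constant `c > 0` such that for every `B` there is `C > 0` such that for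
all large `x`: if `2 ≤ y ≤ x^c` and `1 ≤ z ≤ x`, if `n ∈ A(x,k)`, and if some integer `m` with
`|m - n| ≤ B (x + k)` is divisible by every prime in `(y, z]`, then
`k ≤ x exp (C (1 + log (x/z) + √(log y (1 + log (x/z)))))`. -/
theorem result :
    ∃ c : ℝ, 0 < c ∧ ∀ B : ℝ, ∃ C : ℝ, 0 < C ∧ ∃ x₀ : ℕ, ∀ x ≥ x₀, ∀ (y z k n : ℕ) (m : ℤ),
      2 ≤ y → (y : ℝ) ≤ (x : ℝ) ^ c → 1 ≤ z → z ≤ x →
      InA x k n → |(m : ℝ) - n| ≤ B * (x + k) →
      (∀ p : ℕ, p.Prime → y < p → p ≤ z → (p : ℤ) ∣ m) →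
      (k : ℝ) ≤ x * Real.exp (C * (1 + Real.log ((x : ℝ) / z) +
        Real.sqrt (Real.log y * (1 + Real.log ((x : ℝ) / z))))) := by
  obtain ⟨c, hc, h⟩ := Pool.Agent.Helper6.ER3.exists_B3
  exact ⟨c, hc, h⟩

end Pool.Agent.Results.MP_2edd02_nt.MethodLimit
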