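import Mathlib
import Pool.Agent.Helper6.ER3.PartC

/-!
Structure of all long runs of integers with a small prime factor: no integer in the run or near it
is divisible by almost all of the large primes that are used.
-/

namespace Pool.Agent.Results.MP_2edd02_nt.RunStructure

/-- `n ∈ A(x,k)`: every one of `n+1, …, n+k` has a prime divisor `p ≤ x`. -/
def InA (x k n : ℕ) : Prop := ∀ i ∈ Finset.Icc 1 k, ∃ p : ℕ, p.Prime ∧ p ≤ x ∧ p ∣ n + i

/-- The primes `y < p ≤ x` which do not divide the integer `m`. -/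
def Miss (x y : ℕ) (m : ℤ) : Finset ℕ :=
  (Finset.range (x + 1)).filter (fun p => p.Prime ∧ y < p ∧ ¬ (p : ℤ) ∣ m)

/-- There is an absolute constant `c₀ > 0` such that for every `B` there are `K ≥ 1`, `c₁ > 0`
such that for all large `x`, all `2 ≤ y ≤ x^(c₀)` and all `k ≥ K x`: if `n ∈ A(x,k)` then for
every integer `m` with `|m - n| ≤ B k` the sum of `(1/p) log x / log (k/p)` over the primes
`y < p ≤ x` which do not divide `m` is at least `c₁ min (1, log (k/x) / log y)`. -/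
theorem result :
    ∃ c₀ : ℝ, 0 < c₀ ∧ ∀ B : ℝ, ∃ K c₁ : ℝ, 1 ≤ K ∧ 0 < c₁ ∧ ∃ x₀ : ℕ, ∀ x ≥ x₀,
      ∀ (y k n : ℕ) (m : ℤ), 2 ≤ y → (y : ℝ) ≤ (x : ℝ) ^ c₀ → K * x ≤ k → InA x k n →
        |(m : ℝ) - n| ≤ B * k →
        c₁ * min 1 (Real.log ((k : ℝ) / x) / Real.log y) ≤
          ∑ p ∈ Miss x y m, (1 / (p : ℝ)) * (Real.log x / Real.log ((k : ℝ) / p)) := by
  obtain ⟨c₀, hc₀, hA, _⟩ := Pool.Agent.Helper6.ER3.exists_AC3
  exact ⟨c₀, hc₀, hA⟩

end Pool.Agent.Results.MP_2edd02_nt.RunStructure
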